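import Pool.Agent.W169.AF.Stm
import Pool.Agent.W469.RT.JenA

/-!
# AF-ZN: the number of zeros in the local situation (helper790, for helper169)
-/

set_option autoImplicit false

namespace Pool.Agent.W790.AF

open Set Pool.Agent.W169.AF
open Pool.Agent.H24R2.DZ (NN)

/-- Grönwall -/
theorem gron (f f' : ℝ → ℂ) (K : ℝ) (hK : 0 < K)
    (hf : ∀ x ∈ Icc (0 : ℝ) 1, HasDerivAt f (f' x) x)
    (hb : ∀ x ∈ Icc (0 : ℝ) 1, ‖f' x‖ ≤ K * ‖f x‖) : ‖f 1‖ ≤ Real.exp K * ‖f 0‖ := by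
  have hc : ContinuousOn f (Icc 0 1) := fun x hx => (hf x hx).continuousAt.continuousWithinAt
  have h1 : ∀ x ∈ Icc (0 : ℝ) 1, ‖f x‖ ≤ gronwallBound ‖f 0‖ K 0 (x - 0) := by
    apply norm_le_gronwallBound_of_norm_deriv_right_le hc
      (fun x hx => (hf x ⟨hx.1, hx.2.le⟩).hasDerivWithinAt) le_rfl
    intro x hx
    simpa using hb x ⟨hx.1, hx.2.le⟩
  have := h1 1 ⟨zero_le_one, le_rfl⟩
  rw [gronwallBound_of_K_ne_0 hK.ne'] at this
  simp at this
  linarith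

theorem right {a : ℝ} {F : ℂ → ℂ} (ha : 1 ≤ a) (h : NN a (1 / 10) F) (z : ℂ)
    (hz : 1 / 1000 ≤ z.re) (hn : ‖z‖ = 5) : ‖F z‖ ≤ Real.exp (7 * a) * ‖F 1‖ := by
  have hseg : ∀ x ∈ Icc (0 : ℝ) 1, 1 / 1000 ≤ (1 + (x : ℂ) * (z - 1)).re ∧
      ‖1 + (x : ℂ) * (z - 1)‖ ≤ 20 := by
    intro x hx
    constructor
    · have e : (1 + (x : ℂ) * (z - 1)).re = (1 - x) + x * z.re := by
        simp
        ring
      rw [e]
      nlinarith [hx.1, hx.2]
    · refine (norm_add_le _ _).trans ?_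
      rw [norm_one, norm_mul, Complex.norm_real, Real.norm_eq_abs, abs_of_nonneg hx.1]
      have h1 : ‖z - 1‖ ≤ 6 := by
        refine (norm_sub_le _ _).trans ?_
        rw [hn, norm_one]
        norm_num
      nlinarith [hx.1, hx.2, norm_nonneg (z - 1)]
  have key := gron (fun x : ℝ => F (1 + (x : ℂ) * (z - 1)))
    (fun x : ℝ => F (1 + (x : ℂ) * (z - 1)) * logDeriv F (1 + (x : ℂ) * (z - 1)) * (z - 1))
    (7 * a) (by linarith) ?_ ?_
  · simpa using key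
  · intro x hx
    obtain ⟨h1, h2⟩ := hseg x hx
    obtain ⟨h3, -⟩ := h.far _ h1 h2
    have hlin : HasDerivAt (fun x : ℝ => 1 + (x : ℂ) * (z - 1)) (z - 1) x := by
      have h0 : HasDerivAt (fun x : ℝ => (x : ℂ)) 1 x := Complex.ofRealCLM.hasDerivAt
      simpa using (h0.mul_const (z - 1)).const_add 1
    have hF : HasDerivAt F (deriv F (1 + (x : ℂ) * (z - 1))) (1 + (x : ℂ) * (z - 1)) :=
      (h.diff _).hasDerivAt
    have h4 := HasDerivAt.comp (h₂ := F) (h := fun x : ℝ => 1 + (x : ℂ) * (z - 1)) x hF hlin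
    refine h4.congr_deriv ?_
    rw [logDeriv_apply, mul_div_cancel₀ _ h3]
  · intro x hx
    obtain ⟨h1, h2⟩ := hseg x hx
    obtain ⟨-, h3⟩ := h.far _ h1 h2
    have h4 : ‖logDeriv F (1 + (x : ℂ) * (z - 1))‖ ≤ 11 / 10 * a := by
      have h5 : logDeriv F (1 + (x : ℂ) * (z - 1)) =
          (logDeriv F (1 + (x : ℂ) * (z - 1)) - a) + a := by ring
      rw [h5]
      refine (norm_add_le _ _).trans ?_
      rw [Complex.norm_real, Real.norm_eq_abs, abs_of_nonneg (by linarith)]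
      linarith
    have h5 : ‖z - 1‖ ≤ 6 := by
      refine (norm_sub_le _ _).trans ?_
      rw [hn, norm_one]
      norm_num
    rw [norm_mul, norm_mul]
    have h6 : ‖logDeriv F (1 + (x : ℂ) * (z - 1))‖ * ‖z - 1‖ ≤ 11 / 10 * a * 6 :=
      mul_le_mul h4 h5 (norm_nonneg _) (by linarith)
    have h7 := norm_nonneg (F (1 + (x : ℂ) * (z - 1)))
    calc ‖F (1 + (x : ℂ) * (z - 1))‖ * ‖logDeriv F (1 + (x : ℂ) * (z - 1))‖ * ‖z - 1‖
        = (‖logDeriv F (1 + (x : ℂ) * (z - 1))‖ * ‖z - 1‖) * ‖F (1 + (x : ℂ) * (z - 1))‖ := by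
          ring
      _ ≤ (11 / 10 * a * 6) * ‖F (1 + (x : ℂ) * (z - 1))‖ :=
          mul_le_mul_of_nonneg_right h6 h7
      _ ≤ (7 * a) * ‖F (1 + (x : ℂ) * (z - 1))‖ := by
          apply mul_le_mul_of_nonneg_right _ h7
          linarith

theorem circle {a : ℝ} {F : ℂ → ℂ} (ha : 1 ≤ a) (h : NN a (1 / 10) F) (z : ℂ) (hn : ‖z‖ = 5) :
    ‖F z‖ ≤ Real.exp (7 * a) * ‖F 1‖ := by
  rcases le_total (1 / 1000) z.re with h1 | h1
  · exact right ha h z h1 hn
  rcases le_total (-(1 / 1000)) z.re with h2 | h2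
  · have h3 := h.near z (abs_le.2 ⟨h2, h1⟩) (by rw [hn]; norm_num)
    refine h3.trans ?_
    rw [mul_comm]
    apply mul_le_mul_of_nonneg_right _ (norm_nonneg _)
    apply Real.exp_le_exp.2
    linarith
  · set w : ℂ := -((starRingEnd ℂ) z) with hw
    have h3 : -((starRingEnd ℂ) w) = z := by
      rw [hw]
      simp
    have h4 : ‖w‖ = 5 := by
      rw [hw, norm_neg, RCLike.norm_conj, hn]
    have h5 : 1 / 1000 ≤ w.re := by
      rw [hw]
      simp
      linarith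
    have h6 := h.symm w
    rw [h3] at h6
    rw [h6, RCLike.norm_conj]
    exact right ha h w h5 h4

theorem zn : S_ZN := by
  refine ⟨1 / 10, 11, by norm_num, by norm_num, ?_⟩
  intro a F ha h S hS
  obtain ⟨h1, -⟩ := h.far 1 (by simp; norm_num) (by simp)
  have key := Pool.Agent.W469.RT.Jen.jen0 F h.diff 1 1 5 (Real.exp (7 * a) * ‖F 1‖)
    (by norm_num) (by norm_num) (by simp) (fun z hz => circle ha h z hz) h1 S hS
  set n := ∑ s ∈ S, analyticOrderNatAt F s with hn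
  have hF : 0 < ‖F 1‖ := norm_pos_iff.2 h1
  rw [norm_one] at key
  have h2 : (2 : ℝ) ^ n ≤ Real.exp (7 * a) := by
    have e1 : ((5 : ℝ) - 1) ^ n = 2 ^ n * 2 ^ n := by
      rw [← mul_pow]
      norm_num
    have e2 : ((1 : ℝ) + 1) ^ n = 2 ^ n := by norm_num
    rw [e1, e2] at key
    have h3 : (0 : ℝ) < 2 ^ n := by positivity
    have h4 : (2 ^ n * ‖F 1‖) * (2 : ℝ) ^ n ≤ (2 ^ n * ‖F 1‖) * Real.exp (7 * a) := by
      linarith
    exact le_of_mul_le_mul_left h4 (by positivity)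
  have h3 : (n : ℝ) * Real.log 2 ≤ 7 * a := by
    have := Real.log_le_log (by positivity) h2
    rwa [Real.log_exp, Real.log_pow] at this
  have h4 := Real.log_two_gt_d9
  have h5 : (∑ s ∈ S, (analyticOrderNatAt F s : ℝ)) = (n : ℝ) := by
    rw [hn]
    push_cast
    rfl
  rw [h5]
  have h6 : (0 : ℝ) ≤ n := Nat.cast_nonneg n
  nlinarith

end Pool.Agent.W790.AF
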